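import Pool.Agent.Lib.MP_db622c_co.Mate

/-!
# MP_db622c_co: room mates in dimensions three and four (explicit tables)
-/

namespace Pool.Agent.Lib.MP_db622c_co

abbrev A3 : Type := ZMod 2 × ZMod 2 × ZMod 2
abbrev A4 : Type := ZMod 2 × ZMod 2 × ZMod 2 × ZMod 2

def bit (n : ℕ) : ZMod 2 := if n % 2 = 1 then 1 else 0

def enc3 (x : A3) : ℕ := x.1.val + 2 * x.2.1.val + 4 * x.2.2.val
def dec3 (n : ℕ) : A3 := (bit n, bit (n / 2), bit (n / 4))
def T3 : ℕ := 0x436512740172356310274656720153452710643134560722563470176543210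
def r3 (x y : A3) : A3 := dec3 ((T3 >>> (4 * (8 * enc3 x + enc3 y))) % 16)

def enc4 (x : A4) : ℕ := x.1.val + 2 * x.2.1.val + 4 * x.2.2.1.val + 8 * x.2.2.2.val
def dec4 (n : ℕ) : A4 := (bit n, bit (n / 2), bit (n / 4), bit (n / 8))
def T4 : ℕ := 0x6ced2a4b578193f605fac893712b4dec50afeb34291867defa01d4759832b6cdaf103769425ec8b2ced30158b467f9aa8b47102f3dc6e5949376520c1aefdb8b34598fc0e6da12757294b31e0fad8c6719824da6f0bc3e5821356cedab097f41b82e76fadc90543946bcfed183750a23d76895b2cef4a01fedcba9876543210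
def r4 (x y : A4) : A4 := dec4 ((T4 >>> (4 * (16 * enc4 x + enc4 y))) % 16)

set_option synthInstance.maxSize 4000 in
theorem mate3 : Mate A3 := by
  refine ⟨r3, ?_, ?_, ?_, ?_⟩
  · decide +kernel
  · decide +kernel
  · decide +kernel
  · decide +kernel

set_option synthInstance.maxSize 4000 in
theorem mate4 : Mate A4 := by
  refine ⟨r4, ?_, ?_, ?_, ?_⟩
  · decide +kernel
  · decide +kernel
  · decide +kernel
  · decide +kernel

end Pool.Agent.Lib.MP_db622c_co
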