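import Mathlib

/-!
# MP_db622c_co: complete balanced Howell rotations (definitions)
-/

namespace Pool.Agent.Lib.MP_db622c_co

/-- The matrix `S` with one further row (indexed by `none`) all of whose entries are `+1`. -/
def appendOnes {B C : Type*} (S : B → C → ℤ) : Matrix (Option B) C ℤ :=
  fun i j => match i with
    | none => 1
    | some b => S b j

/-- `(R, S)` is a complete balanced Howell rotation with board set `B`, partnership set `C`
and round set `N`. -/
structure IsCBHR {B C N : Type*} [Fintype B] [Fintype C] [DecidableEq B]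
    (R : B → C → N) (S : B → C → ℤ) : Prop where
  /-- the entries of `S` are `+1` and `-1` -/
  sign : ∀ i j, S i j = 1 ∨ S i j = -1
  /-- `S` with a row of `+1`'s appended is a Hadamard matrix: `H Hᵀ = n I` -/
  hadamard : appendOnes S * (appendOnes S).transpose
    = (Fintype.card C : ℤ) • (1 : Matrix (Option B) (Option B) ℤ)
  /-- each column of `R` contains each round exactly once -/
  round : ∀ j, Function.Bijective (fun i => R i j)
  /-- two distinct columns agree in exactly one row of `R`, and there `S` has opposite signs -/
  meet : ∀ j k, j ≠ k → (∃! i, R i j = R i k) ∧ ∀ i, R i j = R i k → S i j = - S i k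

/-- There is a complete balanced Howell rotation on `n` partnerships and `n - 1` boards
(`n` a positive multiple of `4`; boards and rounds are numbered by `Fin (n - 1)`,
partnerships by `Fin n`). -/
def HasCBHR (n : ℕ) : Prop :=
  0 < n ∧ n % 4 = 0 ∧
    ∃ (R : Fin (n - 1) → Fin n → Fin (n - 1)) (S : Fin (n - 1) → Fin n → ℤ), IsCBHR R S

/-- Transport of a complete balanced Howell rotation along bijections. -/
theorem IsCBHR.transport {B C N B' C' N' : Type*} [Fintype B] [Fintype C] [DecidableEq B]
    [Fintype B'] [Fintype C'] [DecidableEq B']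
    (eB : B' ≃ B) (eC : C' ≃ C) (eN : N ≃ N') {R : B → C → N} {S : B → C → ℤ}
    (h : IsCBHR R S) :
    IsCBHR (fun i j => eN (R (eB i) (eC j))) (fun i j => S (eB i) (eC j)) := by
  refine ⟨fun i j => h.sign _ _, ?_, ?_, ?_⟩
  · have hh := h.hadamard
    ext i k
    have h1 := congrFun (congrFun hh (i.map eB)) (k.map eB)
    rw [Matrix.mul_apply] at h1 ⊢
    have h2 : ∀ (i : Option B') (j : C'),
        appendOnes (fun i j => S (eB i) (eC j)) i j = appendOnes S (i.map eB) (eC j) := by
      intro i j
      cases i <;> rfl
    have h3 : ∑ j, appendOnes (fun i j => S (eB i) (eC j)) i j *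
        (appendOnes (fun i j => S (eB i) (eC j))).transpose j k
        = ∑ j, appendOnes S (i.map eB) j * (appendOnes S).transpose j (k.map eB) := by
      rw [← Equiv.sum_comp eC]
      refine Finset.sum_congr rfl fun j _ => ?_
      rw [Matrix.transpose_apply, Matrix.transpose_apply, h2, h2]
    rw [h3, h1, Fintype.card_congr eC]
    simp only [Matrix.smul_apply, Matrix.one_apply]
    congr 2
    rcases i with _ | i <;> rcases k with _ | k <;> simp
  · intro j
    exact eN.bijective.comp ((h.round (eC j)).comp eB.bijective)
  · intro j k hjk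
    obtain ⟨⟨i, hi, hiu⟩, hs⟩ := h.meet (eC j) (eC k) (fun hh => hjk (eC.injective hh))
    refine ⟨⟨eB.symm i, ?_, ?_⟩, ?_⟩
    · simpa using hi
    · intro i' hi'
      have := hiu (eB i') (eN.injective hi')
      rw [← this]; simp
    · intro i' hi'
      exact hs (eB i') (eN.injective hi')

/-- A complete balanced Howell rotation on arbitrary finite sets of the right sizes. -/
theorem HasCBHR.of_types {B C N : Type} [Fintype B] [Fintype C] [Fintype N] [DecidableEq B]
    {R : B → C → N} {S : B → C → ℤ} (h : IsCBHR R S) (n : ℕ) (hn : 0 < n) (h4 : n % 4 = 0)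
    (hC : Fintype.card C = n) (hB : Fintype.card B = n - 1) (hN : Fintype.card N = n - 1) :
    HasCBHR n := by
  refine ⟨hn, h4, _, _, h.transport (Fintype.equivFinOfCardEq hB).symm
    (Fintype.equivFinOfCardEq hC).symm (Fintype.equivFinOfCardEq hN)⟩

end Pool.Agent.Lib.MP_db622c_co
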