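import Pool.Agent.Lib.MP_db622c_co.ParamsEx

/-!
# MP_db622c_co: from a room mate of the affine one-factorization to a complete balanced
Howell rotation
-/

namespace Pool.Agent.Lib.MP_db622c_co

/-- the sign attached to an element of `ZMod 2` -/
def sg (a : ZMod 2) : ℤ := if a = 0 then 1 else -1

theorem sg_add : ∀ a b : ZMod 2, sg (a + b) = sg a * sg b := by decide
theorem sg_add_one : ∀ a : ZMod 2, sg (a + 1) = - sg a := by decide
theorem sg_cases : ∀ a : ZMod 2, sg a = 1 ∨ sg a = -1 := by decide

theorem sum_sg {K : Type*} [Field K] [Fintype K] (f : K →+ ZMod 2) (f1 : f 1 = 1)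
    (μ : K) (hμ : μ ≠ 0) : ∑ x : K, sg (f (μ * x)) = 0 := by
  have h1 : ∑ x : K, sg (f (μ * x)) = ∑ x : K, sg (f (μ * (x + μ⁻¹))) :=
    (Equiv.sum_comp (Equiv.addRight μ⁻¹) (fun x => sg (f (μ * x)))).symm
  have h2 : ∀ x : K, sg (f (μ * (x + μ⁻¹))) = - sg (f (μ * x)) := by
    intro x
    rw [mul_add, mul_inv_cancel₀ hμ, map_add, f1, sg_add_one]
  rw [Finset.sum_congr rfl (fun x _ => h2 x), Finset.sum_neg_distrib] at h1
  linarith

theorem cbhr_of_mate {K : Type} [Field K] [CharP K 2] [Fintype K] [DecidableEq K]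
    (f : K →+ ZMod 2) (f1 : f 1 = 1) (h : Mate K) :
    ∃ (R : {b : K // b ≠ 0} → K → {b : K // b ≠ 0}) (S : {b : K // b ≠ 0} → K → ℤ),
      IsCBHR R S := by
  obtain ⟨r, h0, hs, hA, hB⟩ := h
  have hxb : ∀ (b : {b : K // b ≠ 0}) (x : K), x ≠ x + b.1 := by
    intro b x hx
    exact b.2 (by simpa using hx.symm)
  refine ⟨fun b x => ⟨r x (x + b.1), h0 _ _ (hxb b x)⟩, fun b x => sg (f (b.1⁻¹ * x)),
    fun _ _ => sg_cases _, ?_, ?_, ?_⟩
  · -- Hadamard
    let lam : Option {b : K // b ≠ 0} → K := fun o => match o with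
      | none => 0
      | some b => b.1⁻¹
    have hlam : Function.Injective lam := by
      intro o o' hoo
      rcases o with _ | b <;> rcases o' with _ | b'
      · rfl
      · exact absurd hoo.symm (inv_ne_zero b'.2)
      · exact absurd hoo (inv_ne_zero b.2)
      · exact congrArg some (Subtype.ext (inv_injective hoo))
    have hH : ∀ (o : Option {b : K // b ≠ 0}) (x : K),
        appendOnes (fun (b : {b : K // b ≠ 0}) x => sg (f (b.1⁻¹ * x))) o x
          = sg (f (lam o * x)) := by
      intro o x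
      rcases o with _ | b
      · simp [appendOnes, lam, sg]
      · rfl
    ext o o'
    rw [Matrix.mul_apply]
    have h1 : ∀ x, appendOnes (fun (b : {b : K // b ≠ 0}) x => sg (f (b.1⁻¹ * x))) o x
        * (appendOnes (fun (b : {b : K // b ≠ 0}) x => sg (f (b.1⁻¹ * x)))).transpose x o'
        = sg (f ((lam o + lam o') * x)) := by
      intro x
      rw [Matrix.transpose_apply, hH, hH, ← sg_add, ← map_add, ← add_mul]
    rw [Finset.sum_congr rfl (fun x _ => h1 x)]
    by_cases hoo : o = o'
    · subst hoo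
      simp [CharTwo.add_self_eq_zero, sg, Matrix.smul_apply]
    · have hne : lam o + lam o' ≠ 0 := by
        intro hc
        apply hoo
        apply hlam
        have := CharTwo.add_self_eq_zero (lam o')
        linear_combination hc - this
      rw [sum_sg f f1 _ hne]
      simp [Matrix.smul_apply, hoo]
  · -- rounds
    intro x
    rw [← Finite.injective_iff_bijective]
    intro b b' hbb
    have h1 : r x (x + b.1) = r x (x + b'.1) := congrArg Subtype.val hbb
    exact Subtype.ext (add_left_cancel (hA x _ _ (hxb b x).symm (hxb b' x).symm h1))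
  · intro x y hxy
    have hne : x + y ≠ 0 := by
      intro hc
      apply hxy
      have := CharTwo.add_self_eq_zero y
      linear_combination hc - this
    have key : ∀ b : {b : K // b ≠ 0}, r x (x + b.1) = r y (y + b.1) → b.1 = x + y := by
      intro b hb
      rcases hB b.1 b.2 _ _ hb with h1 | h1
      · exact absurd h1.symm hxy
      · have := CharTwo.add_self_eq_zero x
        linear_combination -h1 - this
    refine ⟨⟨⟨x + y, hne⟩, ?_, ?_⟩, ?_⟩
    · apply Subtype.ext
      show r x (x + (x + y)) = r y (y + (x + y))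
      have e1 : x + (x + y) = y := by
        rw [← add_assoc, CharTwo.add_self_eq_zero, zero_add]
      have e2 : y + (x + y) = x := by
        rw [add_comm x y, ← add_assoc, CharTwo.add_self_eq_zero, zero_add]
      rw [e1, e2, hs]
    · intro b hb
      exact Subtype.ext (key b (congrArg Subtype.val hb))
    · intro b hb
      have h1 := key b (congrArg Subtype.val hb)
      have h2 : x = y + b.1 := by
        rw [h1, add_comm x y, ← add_assoc, CharTwo.add_self_eq_zero, zero_add]
      show sg (f (b.1⁻¹ * x)) = - sg (f (b.1⁻¹ * y))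
      rw [h2, mul_add, inv_mul_cancel₀ b.2, map_add, f1, sg_add_one]

/-- Complete balanced Howell rotations on `2 ^ t` partnerships. -/
theorem hasCBHR_two_pow (t : ℕ) (ht : 3 ≤ t) : HasCBHR (2 ^ t) := by
  classical
  have hM := mate_galois t ht
  have : Fintype (GaloisField 2 t) := Fintype.ofFinite _
  have hcard : Fintype.card (GaloisField 2 t) = 2 ^ t := by
    rw [← Nat.card_eq_fintype_card, GaloisField.card 2 t (by omega)]
  have h8 : 8 ≤ Fintype.card (GaloisField 2 t) := by
    rw [hcard]
    calc 8 = 2 ^ 3 := by norm_num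
      _ ≤ 2 ^ t := Nat.pow_le_pow_right (by norm_num) ht
  obtain ⟨P⟩ := exists_params (GaloisField 2 t) h8
  obtain ⟨R, S, h⟩ := cbhr_of_mate P.η P.e1 hM
  have hc : Fintype.card {b : GaloisField 2 t // b ≠ 0} = 2 ^ t - 1 := by
    rw [← hcard]
    simp
  refine HasCBHR.of_types h (2 ^ t) (by positivity) ?_ hcard hc hc
  obtain ⟨s, rfl⟩ : ∃ s, t = s + 2 := ⟨t - 2, by omega⟩
  rw [pow_add]
  omega

/-- `2 ^ t - 1` is a prime power only if `t` is prime. -/
theorem prime_of_isPrimePow {t : ℕ} (ht : 2 ≤ t) (h : IsPrimePow (2 ^ t - 1)) : t.Prime := by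
  rw [isPrimePow_nat_iff] at h
  obtain ⟨p, k, hp, hk, hpk⟩ := h
  have h4 : 4 ∣ 2 ^ t := by
    obtain ⟨s, rfl⟩ : ∃ s, t = s + 2 := ⟨t - 2, by omega⟩
    exact ⟨2 ^ s, by ring⟩
  have hpos : 0 < 2 ^ t := by positivity
  have hpk1 : p ^ k + 1 = 2 ^ t := by omega
  have hodd : p % 2 = 1 := by
    rcases hp.eq_two_or_odd with rfl | h
    · exfalso
      have : 2 ∣ 2 ^ k := dvd_pow_self 2 (by omega)
      omega
    · exact h
  -- k is odd
  rcases Nat.even_or_odd' k with ⟨m, rfl | rfl⟩
  · exfalso
    rw [pow_mul] at hpk1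
    have h1 : p ^ 2 % 4 = 1 := by
      have : p % 4 = 1 ∨ p % 4 = 3 := by omega
      rcases this with h | h <;> simp [Nat.pow_mod, h]
    have h2 : (p ^ 2) ^ m % 4 = 1 := by
      rw [Nat.pow_mod, h1, one_pow]
      norm_num
    omega
  · -- p + 1 divides 2 ^ t
    have h1 : p + 1 ∣ 2 ^ t := by
      have := Odd.nat_add_dvd_pow_add_pow p 1 (n := 2 * m + 1) ⟨m, rfl⟩
      rwa [one_pow, hpk1] at this
    obtain ⟨s, hs, hps⟩ := (Nat.dvd_prime_pow Nat.prime_two).mp h1
    have hs1 : 1 ≤ s := by
      rcases Nat.eq_zero_or_pos s with rfl | h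
      · have := hp.two_le
        simp at hps
        omega
      · exact h
    rcases Nat.lt_or_ge s t with hlt | hge
    · exfalso
      have hd : 2 ^ (s + 1) ∣ 2 ^ t := pow_dvd_pow 2 (by omega)
      have h2 : p ^ 2 ≡ 1 [MOD 2 ^ (s + 1)] := by
        have h3 : p ^ 2 = 1 + 2 ^ (s + 1) * (2 ^ (s - 1) - 1) := by
          have h4 : (p : ℤ) = 2 ^ s - 1 := by
            have : ((p : ℤ) + 1) = 2 ^ s := by exact_mod_cast hps
            linarith
          obtain ⟨u, rfl⟩ : ∃ u, s = u + 1 := ⟨s - 1, by omega⟩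
          have h5 : 1 ≤ 2 ^ u := Nat.one_le_two_pow
          zify
          rw [Nat.add_sub_cancel, Nat.cast_sub h5, h4]
          push_cast
          ring
        rw [h3]
        simp [Nat.ModEq]
      have h3 : p ^ (2 * m + 1) + 1 ≡ 2 ^ s [MOD 2 ^ (s + 1)] := by
        rw [pow_succ p (2 * m), pow_mul, ← hps]
        have := (h2.pow m)
        rw [one_pow] at this
        have := (this.mul_right p).add_right 1
        rwa [one_mul] at this
      rw [hpk1] at h3
      have h4 : 2 ^ (s + 1) ∣ 2 ^ s := by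
        have h5 : 2 ^ t ≡ 0 [MOD 2 ^ (s + 1)] := (Nat.modEq_zero_iff_dvd).mpr hd
        exact (Nat.modEq_zero_iff_dvd).mp (h3.symm.trans h5)
      have h5 := Nat.le_of_dvd (by positivity) h4
      rw [pow_succ] at h5
      have : 0 < 2 ^ s := by positivity
      omega
    · have hst : s = t := le_antisymm hs hge
      subst hst
      have : (2 ^ s - 1).Prime := by
        rw [← hps, Nat.add_sub_cancel]
        exact hp
      exact (Nat.prime_of_pow_sub_one_prime (by omega) this).2

end Pool.Agent.Lib.MP_db622c_co
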