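import Pool.Agent.Lib.MP_db622c_co.Defs

/-!
# MP_db622c_co: room mates of the affine one-factorization

`Mate A` says that the affine one-factorization `{x, x + b}` of the complete graph on an
elementary abelian `2`-group `A` has an orthogonal one-factorization, given by the symmetric
function `r`, whose values are the nonzero elements of `A`.
-/

namespace Pool.Agent.Lib.MP_db622c_co

/-- The affine one-factorization of `A` has an orthogonal mate. -/
def Mate (A : Type*) [AddCommGroup A] : Prop :=
  ∃ r : A → A → A,
    (∀ x y, x ≠ y → r x y ≠ 0) ∧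
    (∀ x y, r x y = r y x) ∧
    (∀ x y y', y ≠ x → y' ≠ x → r x y = r x y' → y = y') ∧
    (∀ b, b ≠ 0 → ∀ x x', r x (x + b) = r x' (x' + b) → x' = x ∨ x' = x + b)

theorem Mate.transport {A B : Type*} [AddCommGroup A] [AddCommGroup B] (e : A ≃+ B)
    (h : Mate A) : Mate B := by
  obtain ⟨r, h0, hs, hA, hB⟩ := h
  refine ⟨fun x y => e (r (e.symm x) (e.symm y)), ?_, ?_, ?_, ?_⟩
  · intro x y hxy hh
    exact h0 (e.symm x) (e.symm y) (fun hc => hxy (e.symm.injective hc))
      (e.map_eq_zero_iff.mp hh)
  · intro x y
    exact congrArg e (hs _ _)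
  · intro x y y' hy hy' hh
    exact e.symm.injective (hA _ _ _ (fun hc => hy (e.symm.injective hc))
      (fun hc => hy' (e.symm.injective hc)) (e.injective hh))
  · intro b hb x x' hh
    have hh' := e.injective hh
    rw [map_add, map_add] at hh'
    rcases hB (e.symm b) (fun hc => hb (e.symm.map_eq_zero_iff.mp hc)) _ _ hh' with h1 | h1
    · left; exact e.symm.injective h1
    · right
      rw [← map_add] at h1
      exact e.symm.injective h1

/-- The group of order `4`. -/
abbrev F4 : Type := ZMod 2 × ZMod 2

/-- An automorphism of order `3` of the group of order `4`. -/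
def phi (x : F4) : F4 := (x.2, x.1 + x.2)

/-- An idempotent Latin square of order `4` orthogonal to the addition table. -/
def hh (s t : F4) : F4 := t + phi (s + t)

theorem hh_ne_left : ∀ s t : F4, s ≠ t → hh s t ≠ s := by decide
theorem hh_ne_right : ∀ s t : F4, s ≠ t → hh s t ≠ t := by decide
theorem hh_inj_right : ∀ s t t' : F4, hh s t = hh s t' → t = t' := by decide
theorem hh_inj_left : ∀ s s' t : F4, hh s t = hh s' t → s = s' := by decide
theorem hh_diag : ∀ b s s' : F4, hh s (s + b) = hh s' (s' + b) → s = s' := by decide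
theorem phi_ne : ∀ b : F4, b ≠ 0 → phi b ≠ b := by decide
theorem phi_inj : ∀ b c : F4, phi b = phi c → b = c := by decide
theorem phi_ne_zero : ∀ b : F4, b ≠ 0 → phi b ≠ 0 := by decide
theorem F4_self : ∀ b : F4, b + b = 0 := by decide

theorem zmod2_cases (a : ZMod 2) : a = 0 ∨ a = 1 := by
  revert a; decide

end Pool.Agent.Lib.MP_db622c_co
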