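import Pool.Agent.Lib.MP_db622c_co.Step2
import Pool.Agent.Lib.MP_db622c_co.Base

/-!
# MP_db622c_co: existence of the parameters, and room mates in all dimensions at least three
-/

namespace Pool.Agent.Lib.MP_db622c_co

open Polynomial

/-- A field with at least eight elements has an element with `a ^ 4 ≠ a`. -/
theorem exists_pow_four_ne (K : Type*) [Field K] [Fintype K] (h8 : 8 ≤ Fintype.card K) :
    ∃ a : K, a ^ 4 ≠ a := by
  classical
  by_contra hcon
  push Not at hcon
  have hne : (X ^ 4 - X : K[X]) ≠ 0 := FiniteField.X_pow_card_sub_X_ne_zero K (by norm_num)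
  have hdeg : (X ^ 4 - X : K[X]).natDegree = 4 :=
    FiniteField.X_pow_card_sub_X_natDegree_eq K (by norm_num)
  have h1 : (Finset.univ : Finset K) ⊆ (X ^ 4 - X : K[X]).roots.toFinset := by
    intro x _
    rw [Multiset.mem_toFinset, mem_roots hne, IsRoot, eval_sub, eval_pow, eval_X, hcon x, sub_self]
  have h2 := Finset.card_le_card h1
  have h3 := Multiset.toFinset_card_le (X ^ 4 - X : K[X]).roots
  have h4 := card_roots' (X ^ 4 - X : K[X])
  rw [Finset.card_univ] at h2
  omega

/-- A set with at least eight elements has an element outside any four. -/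
theorem exists_avoid (K : Type*) [Fintype K] (h8 : 8 ≤ Fintype.card K) (a b c d : K) :
    ∃ x : K, x ≠ a ∧ x ≠ b ∧ x ≠ c ∧ x ≠ d := by
  classical
  by_contra hcon
  push Not at hcon
  have h1 : (Finset.univ : Finset K) ⊆ {a, b, c, d} := by
    intro x _
    simp only [Finset.mem_insert, Finset.mem_singleton]
    by_contra h
    push Not at h
    exact h.2.2.2 (hcon x h.1 h.2.1 h.2.2.1)
  have h2 := Finset.card_le_card h1
  have h3 : ({a, b, c, d} : Finset K).card ≤ 4 := Finset.card_le_four
  rw [Finset.card_univ] at h2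
  omega

theorem exists_params (K : Type*) [Field K] [CharP K 2] [Fintype K] [Algebra (ZMod 2) K]
    (h8 : 8 ≤ Fintype.card K) : Nonempty (Params K) := by
  classical
  obtain ⟨a, ha⟩ := exists_pow_four_ne K h8
  have h2 : ∀ x : K, x + x = 0 := CharTwo.add_self_eq_zero
  have ha0 : a ≠ 0 := by
    rintro rfl
    apply ha
    simp
  have ha1 : a ≠ 1 := by
    rintro rfl
    apply ha
    simp
  have ha2 : a + a⁻¹ ≠ 1 := by
    intro h
    apply ha
    have h3 : a ^ 2 + 1 = a := by
      field_simp at h
      linear_combination h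
    have h5 := h2 a
    linear_combination (a ^ 2 + a) * h3 - h5
  have hspan : (1 : K) ∉ Submodule.span (ZMod 2) {a, a⁻¹} := by
    intro h
    rw [Submodule.mem_span_pair] at h
    obtain ⟨s, t, hst⟩ := h
    rcases zmod2_cases s with rfl | rfl <;> rcases zmod2_cases t with rfl | rfl
    · simp at hst
    · simp at hst; exact ha1 hst
    · simp at hst; exact ha1 hst
    · simp at hst; exact ha2 hst
  obtain ⟨f, hf1, hf2⟩ := Submodule.exists_dual_map_eq_bot_of_notMem hspan inferInstance
  have hf0 : ∀ x ∈ Submodule.span (ZMod 2) {a, a⁻¹}, f x = 0 := by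
    intro x hx
    have : f x ∈ Submodule.map f (Submodule.span (ZMod 2) {a, a⁻¹}) :=
      Submodule.mem_map_of_mem hx
    rw [hf2] at this
    exact (Submodule.mem_bot _).mp this
  obtain ⟨c, hc0, hc1, hc2, hc3⟩ := exists_avoid K h8 0 1 (1 + a)⁻¹ (1 + (1 + a)⁻¹)
  refine ⟨{ a := a, c := c, η := f.toAddMonoidHom, ha0 := ha0, ha1 := ha1, e1 := ?_,
            ea := ?_, ea' := ?_, hc0 := hc0, hc1 := hc1, hc2 := hc2, hc3 := hc3 }⟩
  · rcases zmod2_cases (f 1) with h | h
    · exact absurd h hf1
    · exact h
  · exact hf0 a (Submodule.subset_span (by simp))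
  · exact hf0 a⁻¹ (Submodule.subset_span (by simp))

/-- Room mates over the Galois fields. -/
theorem mate_galois : ∀ t : ℕ, 3 ≤ t → Mate (GaloisField 2 t) := by
  have base : ∀ (t : ℕ) (_ : t ≠ 0) (A : Type) [AddCommGroup A] [Module (ZMod 2) A]
      [Module.Finite (ZMod 2) A],
      Module.finrank (ZMod 2) A = t → Mate A → Mate (GaloisField 2 t) := by
    intro t ht A _ _ _ hA hM
    have e : A ≃ₗ[ZMod 2] GaloisField 2 t :=
      LinearEquiv.ofFinrankEq _ _ (by rw [hA, GaloisField.finrank 2 ht])
    exact hM.transport e.toAddEquiv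
  intro t
  induction t using Nat.strong_induction_on with
  | _ t ih =>
    intro ht
    by_cases h3 : t = 3
    · subst h3
      exact base 3 (by norm_num) A3 (by simp [A3]) mate3
    by_cases h4 : t = 4
    · subst h4
      exact base 4 (by norm_num) A4 (by simp [A4]) mate4
    · obtain ⟨w, rfl⟩ : ∃ w, t = w + 2 := ⟨t - 2, by omega⟩
      have hw : 3 ≤ w := by omega
      have hM := ih w (by omega) hw
      have : Fintype (GaloisField 2 w) := Fintype.ofFinite _
      classical
      have hcard : Fintype.card (GaloisField 2 w) = 2 ^ w := by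
        rw [← Nat.card_eq_fintype_card, GaloisField.card 2 w (by omega)]
      have h8 : 8 ≤ Fintype.card (GaloisField 2 w) := by
        rw [hcard]
        calc 8 = 2 ^ 3 := by norm_num
          _ ≤ 2 ^ w := Nat.pow_le_pow_right (by norm_num) hw
      obtain ⟨P⟩ := exists_params (GaloisField 2 w) h8
      refine base (w + 2) (by omega) (F4 × GaloisField 2 w) ?_ (mate_step P hM)
      rw [Module.finrank_prod, GaloisField.finrank 2 (by omega)]
      simp [F4]
      omega

end Pool.Agent.Lib.MP_db622c_co
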