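import Pool.Agent.Lib.MP_db622c_co.Mate

/-!
# MP_db622c_co: the recursion step `K ↦ F4 × K`
-/

namespace Pool.Agent.Lib.MP_db622c_co

/-- The parameters of the recursion step over a field `K` of characteristic two: an additive
function `η : K → ZMod 2` with `η 1 = 1`, `η a = 0`, `η a⁻¹ = 0` for some `a ≠ 0, 1`, and an
element `c` outside the additive group generated by `1` and `(1 + a)⁻¹`. -/
structure Params (K : Type*) [Field K] where
  a : K
  c : K
  η : K →+ ZMod 2
  ha0 : a ≠ 0
  ha1 : a ≠ 1
  e1 : η 1 = 1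
  ea : η a = 0
  ea' : η a⁻¹ = 0
  hc0 : c ≠ 0
  hc1 : c ≠ 1
  hc2 : c ≠ (1 + a)⁻¹
  hc3 : c ≠ 1 + (1 + a)⁻¹

variable {K : Type*} [Field K] [CharP K 2] [DecidableEq K] (P : Params K)

/-- the additive embedding of `F4` -/
def Params.iota (P : Params K) (x : F4) : K :=
  (if x.1 = 0 then 0 else 1) + (if x.2 = 0 then 0 else (1 + P.a)⁻¹)

def Params.nu (P : Params K) (x : F4) : K := P.c + P.iota x

def delta (x : F4) : K := if x = 0 then 1 else 0

def Params.u (P : Params K) (x : F4) (y : K) : K := (y + delta x) / P.nu x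

omit [DecidableEq K] in
theorem char2 (x : K) : x + x = 0 := CharTwo.add_self_eq_zero x

omit [DecidableEq K] in
theorem one_add_a_ne (P : Params K) : (1 + P.a) ≠ 0 := by
  intro h
  apply P.ha1
  have := char2 (1 : K)
  linear_combination h - this

omit [DecidableEq K] in
theorem iota_add (x y : F4) : P.iota (x + y) = P.iota x + P.iota y := by
  have h1 := char2 (1 : K)
  have h2 := char2 ((1 + P.a)⁻¹)
  obtain ⟨x1, x2⟩ := x
  obtain ⟨y1, y2⟩ := y
  rcases zmod2_cases x1 with rfl | rfl <;> rcases zmod2_cases x2 with rfl | rfl <;>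
  rcases zmod2_cases y1 with rfl | rfl <;> rcases zmod2_cases y2 with rfl | rfl <;>
  simp [Params.iota, CharTwo.add_self_eq_zero] <;> grind

omit [DecidableEq K] in
/-- the three values `(ι b)⁻¹`, `b ≠ 0`, have `η = 1` -/
theorem eta_inv_iota (b : F4) (hb : b ≠ 0) : P.iota b ≠ 0 ∧ P.η (P.iota b)⁻¹ = 1 := by
  have h1 := char2 (1 : K)
  have h3 := one_add_a_ne P
  obtain ⟨x1, x2⟩ := b
  rcases zmod2_cases x1 with rfl | rfl <;> rcases zmod2_cases x2 with rfl | rfl
  · exact absurd rfl hb
  · refine ⟨?_, ?_⟩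
    · simp [Params.iota, h3]
    · simp [Params.iota, P.e1, P.ea]
  · refine ⟨?_, ?_⟩
    · simp [Params.iota]
    · simp [Params.iota, P.e1]
  · have h4 : P.iota ((1 : ZMod 2), (1 : ZMod 2)) = P.a / (1 + P.a) := by
      simp only [Params.iota]
      simp
      field_simp
      linear_combination h1
    refine ⟨?_, ?_⟩
    · rw [h4]
      exact div_ne_zero P.ha0 h3
    · rw [h4, inv_div]
      have h5 : (1 + P.a) / P.a = 1 + P.a⁻¹ := by
        have := P.ha0
        field_simp
        ring
      rw [h5, map_add, P.e1, P.ea', add_zero]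

omit [DecidableEq K] in
theorem nu_ne (x : F4) : P.nu x ≠ 0 := by
  have key : ∀ z : K, P.c ≠ z → P.c + z ≠ 0 := by
    intro z hz h
    apply hz
    have := char2 z
    linear_combination h - this
  obtain ⟨x1, x2⟩ := x
  rcases zmod2_cases x1 with rfl | rfl <;> rcases zmod2_cases x2 with rfl | rfl <;>
    simp only [Params.nu, Params.iota] <;> simp
  · exact P.hc0
  · exact key _ P.hc2
  · exact key _ P.hc1
  · exact key _ P.hc3

omit [DecidableEq K] in
theorem nu_add_nu (x y : F4) : P.nu x + P.nu y = P.iota (x + y) := by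
  rw [iota_add, Params.nu, Params.nu]
  have := char2 P.c
  linear_combination this

omit [DecidableEq K] in
theorem nu_inj {x y : F4} (h : P.nu x = P.nu y) : x = y := by
  by_contra hne
  have h1 : x + y ≠ 0 := by
    intro h2
    apply hne
    revert h2; clear h hne; revert x y; decide
  have h2 := (eta_inv_iota P (x + y) h1).1
  rw [← nu_add_nu, h] at h2
  exact h2 (char2 _)

omit [DecidableEq K] in
theorem u_inj (x : F4) {y y' : K} (h : P.u x y = P.u x y') : y = y' := by
  have h1 := nu_ne P x
  rw [Params.u, Params.u, div_left_inj' h1] at h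
  exact add_right_cancel h

end Pool.Agent.Lib.MP_db622c_co
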