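import Pool.Agent.Lib.MP_db622c_co.Step

/-!
# MP_db622c_co: the recursion step, conclusion
-/

namespace Pool.Agent.Lib.MP_db622c_co

set_option linter.unusedSectionVars false

variable {K : Type*} [Field K] [CharP K 2] [DecidableEq K] (P : Params K)

/-- The function `r` on `F4 × K`. -/
def Params.r (P : Params K) (rK : K → K → K) (p q : F4 × K) : F4 × K :=
  if p.1 = q.1 then (p.1, rK p.2 q.2)
  else if P.u p.1 p.2 + P.u q.1 q.2 = 0 then
    (if P.η (P.u p.1 p.2) = 0 then p.1 + q.1 else phi (p.1 + q.1), 0)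
  else if P.η (P.u p.1 p.2 / (P.u p.1 p.2 + P.u q.1 q.2)) = 0 then
    (hh p.1 q.1, P.u p.1 p.2 + P.u q.1 q.2)
  else (hh q.1 p.1, P.u p.1 p.2 + P.u q.1 q.2)

theorem r_same (rK : K → K → K) {p q : F4 × K} (h : p.1 = q.1) :
    P.r rK p q = (p.1, rK p.2 q.2) := by
  simp [Params.r, h]

theorem r_snd (rK : K → K → K) {p q : F4 × K} (h : p.1 ≠ q.1) :
    (P.r rK p q).2 = P.u p.1 p.2 + P.u q.1 q.2 := by
  unfold Params.r
  rw [if_neg h]
  split_ifs with h1 h2 h3 <;> simp [h1]

theorem r_zero (rK : K → K → K) {p q : F4 × K} (h : p.1 ≠ q.1)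
    (h1 : P.u p.1 p.2 + P.u q.1 q.2 = 0) :
    P.r rK p q = (if P.η (P.u p.1 p.2) = 0 then p.1 + q.1 else phi (p.1 + q.1), 0) := by
  unfold Params.r
  rw [if_neg h, if_pos h1]

theorem r_pos (rK : K → K → K) {p q : F4 × K} (h : p.1 ≠ q.1)
    (h1 : P.u p.1 p.2 + P.u q.1 q.2 ≠ 0) :
    (P.r rK p q).1 = if P.η (P.u p.1 p.2 / (P.u p.1 p.2 + P.u q.1 q.2)) = 0
      then hh p.1 q.1 else hh q.1 p.1 := by
  unfold Params.r
  rw [if_neg h, if_neg h1]
  split_ifs <;> rfl

theorem add_ne_zero_of_ne : ∀ x y : F4, x ≠ y → x + y ≠ 0 := by decide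

theorem r_ne (rK : K → K → K) (h0 : ∀ x y, x ≠ y → rK x y ≠ 0) (p q : F4 × K)
    (hpq : p ≠ q) : P.r rK p q ≠ 0 := by
  by_cases h : p.1 = q.1
  · rw [r_same P rK h]
    intro hc
    have h2 : rK p.2 q.2 = 0 := congrArg Prod.snd hc
    exact h0 _ _ (fun h3 => hpq (Prod.ext h h3)) h2
  · by_cases h1 : P.u p.1 p.2 + P.u q.1 q.2 = 0
    · rw [r_zero P rK h h1]
      intro hc
      have h2 := congrArg Prod.fst hc
      have h3 := add_ne_zero_of_ne _ _ h
      dsimp only at h2
      split_ifs at h2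
      · exact h3 h2
      · exact phi_ne_zero _ h3 h2
    · intro hc
      have h2 : (P.r rK p q).2 = 0 := by rw [hc]; rfl
      rw [r_snd P rK h] at h2
      exact h1 h2

theorem r_symm (rK : K → K → K) (hs : ∀ x y, rK x y = rK y x) (p q : F4 × K) :
    P.r rK p q = P.r rK q p := by
  by_cases h : p.1 = q.1
  · rw [r_same P rK h, r_same P rK h.symm, h, hs]
  · have h' : q.1 ≠ p.1 := fun hc => h hc.symm
    by_cases h1 : P.u p.1 p.2 + P.u q.1 q.2 = 0
    · have h1' : P.u q.1 q.2 + P.u p.1 p.2 = 0 := by rw [add_comm]; exact h1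
      have h2 : P.u p.1 p.2 = P.u q.1 q.2 := by
        have := char2 (P.u q.1 q.2)
        linear_combination h1 - this
      rw [r_zero P rK h h1, r_zero P rK h' h1', h2, add_comm p.1 q.1]
    · have h1' : P.u q.1 q.2 + P.u p.1 p.2 ≠ 0 := by rw [add_comm]; exact h1
      refine Prod.ext ?_ ?_
      · rw [r_pos P rK h h1, r_pos P rK h' h1']
        have h3 : P.η (P.u p.1 p.2 / (P.u p.1 p.2 + P.u q.1 q.2))
            + P.η (P.u q.1 q.2 / (P.u q.1 q.2 + P.u p.1 p.2)) = 1 := by
          rw [← map_add, add_comm (P.u q.1 q.2) (P.u p.1 p.2), ← add_div, div_self h1, P.e1]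
        revert h3
        generalize P.η (P.u p.1 p.2 / (P.u p.1 p.2 + P.u q.1 q.2)) = s
        generalize P.η (P.u q.1 q.2 / (P.u q.1 q.2 + P.u p.1 p.2)) = t
        intro h3
        rcases zmod2_cases s with rfl | rfl <;> rcases zmod2_cases t with rfl | rfl
        · simp at h3
        · simp
        · simp
        · exact absurd h3 (by decide)
      · rw [r_snd P rK h, r_snd P rK h', add_comm]

theorem r_A (rK : K → K → K) (h0 : ∀ x y, x ≠ y → rK x y ≠ 0)
    (hA : ∀ x y y', y ≠ x → y' ≠ x → rK x y = rK x y' → y = y') (p q q' : F4 × K)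
    (hq : q ≠ p) (hq' : q' ≠ p) (h : P.r rK p q = P.r rK p q') : q = q' := by
  have mixed : ∀ q q' : F4 × K, q ≠ p → p.1 = q.1 → p.1 ≠ q'.1 →
      P.r rK p q = P.r rK p q' → False := by
    intro q q' hq h1 h2 h
    rw [r_same P rK h1] at h
    have h3 : rK p.2 q.2 ≠ 0 := h0 _ _ (fun h4 => hq (Prod.ext h1.symm h4.symm))
    have h4 : P.u p.1 p.2 + P.u q'.1 q'.2 ≠ 0 := by
      rw [← r_snd P rK h2, ← h]
      exact h3
    have h5 := r_pos P rK h2 h4
    rw [← h] at h5
    dsimp only at h5
    split_ifs at h5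
    · exact hh_ne_left _ _ h2 h5.symm
    · exact hh_ne_right _ _ (fun hc => h2 hc.symm) h5.symm
  by_cases h1 : p.1 = q.1
  · by_cases h2 : p.1 = q'.1
    · rw [r_same P rK h1, r_same P rK h2] at h
      refine Prod.ext (h1.symm.trans h2) (hA p.2 _ _ ?_ ?_ (congrArg Prod.snd h))
      · exact fun h3 => hq (Prod.ext h1.symm h3)
      · exact fun h3 => hq' (Prod.ext h2.symm h3)
    · exact (mixed q q' hq h1 h2 h).elim
  · by_cases h2 : p.1 = q'.1
    · exact (mixed q' q hq' h2 h1 h.symm).elim
    · have h3 : P.u q.1 q.2 = P.u q'.1 q'.2 := by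
        have := congrArg Prod.snd h
        rw [r_snd P rK h1, r_snd P rK h2] at this
        exact add_left_cancel this
      have h4 : q.1 = q'.1 := by
        by_cases h5 : P.u p.1 p.2 + P.u q.1 q.2 = 0
        · have h5' : P.u p.1 p.2 + P.u q'.1 q'.2 = 0 := by rw [← h3]; exact h5
          rw [r_zero P rK h1 h5, r_zero P rK h2 h5'] at h
          have h6 := congrArg Prod.fst h
          dsimp only at h6
          split_ifs at h6
          · exact add_left_cancel h6
          · exact add_left_cancel (phi_inj _ _ h6)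
        · have h5' : P.u p.1 p.2 + P.u q'.1 q'.2 ≠ 0 := by rw [← h3]; exact h5
          have h6 := congrArg Prod.fst h
          rw [r_pos P rK h1 h5, r_pos P rK h2 h5', h3] at h6
          split_ifs at h6
          · exact hh_inj_right _ _ _ h6
          · exact hh_inj_left _ _ _ h6
      refine Prod.ext h4 ?_
      rw [← h4] at h3
      exact u_inj P _ h3

theorem ne_add_of_ne : ∀ x b : F4, b ≠ 0 → x ≠ x + b := by decide

theorem x_add_add : ∀ x b : F4, x + (x + b) = b := by decide
theorem add_add_self : ∀ x b : F4, x + b + b = x := by decide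

theorem delta_sum_nat : ∀ x x' b : F4, b ≠ 0 → x' ≠ x → x' ≠ x + b →
    ((if x = 0 then 1 else 0) + (if x + b = 0 then 1 else 0)
      + ((if x' = 0 then 1 else 0) + (if x' + b = 0 then 1 else 0)) : ℕ) = 1 := by decide

omit [CharP K 2] [DecidableEq K] in
theorem delta_sum (x x' b : F4) (hb : b ≠ 0) (h1 : x' ≠ x) (h2 : x' ≠ x + b) :
    (delta x + delta (x + b) + (delta x' + delta (x' + b)) : K) = 1 := by
  have := congrArg (Nat.cast (R := K)) (delta_sum_nat x x' b hb h1 h2)
  push_cast at this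
  simpa only [delta] using this

omit [DecidableEq K] in
/-- for `b.1 ≠ 0` the pairs `{p, p + b}` over one edge of `F4` are determined by their `ρ` -/
theorem u_edge (x b : F4) (hb : b ≠ 0) (y y' b2 : K)
    (h : P.u x y + P.u (x + b) (y + b2) = P.u x y' + P.u (x + b) (y' + b2)) : y = y' := by
  have h1 := nu_ne P x
  have h2 := nu_ne P (x + b)
  have h3 : P.nu x + P.nu (x + b) ≠ 0 := by
    rw [nu_add_nu, x_add_add]
    exact (eta_inv_iota P b hb).1
  simp only [Params.u] at h
  field_simp at h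
  have h4 : (y + y') * (P.nu x + P.nu (x + b)) = 0 := by
    have e1 := char2 (y' * (P.nu x + P.nu (x + b)))
    linear_combination h + e1
  rcases mul_eq_zero.mp h4 with h5 | h5
  · have e1 := char2 y'
    linear_combination h5 - e1
  · exact absurd h5 h3

omit [DecidableEq K] in
theorem u_zero (x b : F4) (y b2 : K) (h : P.u x y + P.u (x + b) (y + b2) = 0) :
    P.u x y * P.iota b = b2 + (delta x + delta (x + b)) := by
  have h1 := nu_ne P x
  have h2 := nu_ne P (x + b)
  have h0 : P.u x y = P.u (x + b) (y + b2) := by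
    have := char2 (P.u (x + b) (y + b2))
    linear_combination h - this
  have h3 : P.u x y * P.nu x = y + delta x := by
    simp only [Params.u]; field_simp
  have h4 : P.u x y * P.nu (x + b) = y + b2 + delta (x + b) := by
    rw [h0]
    simp only [Params.u]; field_simp
  have h5 := nu_add_nu P x (x + b)
  rw [x_add_add] at h5
  rw [← h5, mul_add, h3, h4]
  have := char2 y
  linear_combination this

theorem r_B (rK : K → K → K)
    (hB : ∀ b, b ≠ 0 → ∀ x x', rK x (x + b) = rK x' (x' + b) → x' = x ∨ x' = x + b)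
    (b : F4 × K) (hb : b ≠ 0) (p p' : F4 × K) (h : P.r rK p (p + b) = P.r rK p' (p' + b)) :
    p' = p ∨ p' = p + b := by
  by_cases hb1 : b.1 = 0
  · have hb2 : b.2 ≠ 0 := fun hc => hb (Prod.ext hb1 hc)
    have e1 : p.1 = (p + b).1 := by rw [Prod.fst_add, hb1, add_zero]
    have e2 : p'.1 = (p' + b).1 := by rw [Prod.fst_add, hb1, add_zero]
    rw [r_same P rK e1, r_same P rK e2] at h
    obtain ⟨h1, h2⟩ := Prod.mk.inj h
    rcases hB b.2 hb2 _ _ h2 with h3 | h3
    · left; exact Prod.ext h1.symm h3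
    · right
      refine Prod.ext ?_ h3
      rw [← e1]; exact h1.symm
  · -- b.1 ≠ 0
    have hne : ∀ p : F4 × K, p.1 ≠ (p + b).1 := fun p => by
      rw [Prod.fst_add]; exact ne_add_of_ne _ _ hb1
    have hρ := congrArg Prod.snd h
    rw [r_snd P rK (hne p), r_snd P rK (hne p')] at hρ
    simp only [Prod.fst_add, Prod.snd_add] at hρ
    -- same edge
    by_cases h1 : p'.1 = p.1
    · left
      refine Prod.ext h1 ?_
      rw [h1] at hρ
      exact (u_edge P p.1 b.1 hb1 _ _ _ hρ).symm
    by_cases h2 : p'.1 = p.1 + b.1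
    · right
      have h3 : (p' + b).1 = p.1 := by
        rw [Prod.fst_add, h2, add_add_self]
      have h4 : p'.2 = (p'.2 + b.2) + b.2 := by
        have := char2 b.2
        linear_combination -this
      have h5 : P.u p.1 p.2 + P.u (p.1 + b.1) (p.2 + b.2)
          = P.u p.1 (p'.2 + b.2) + P.u (p.1 + b.1) ((p'.2 + b.2) + b.2) := by
        rw [hρ, h2, add_add_self, ← h4, add_comm]
      have h6 := u_edge P p.1 b.1 hb1 _ _ _ h5
      refine Prod.ext h2 ?_
      rw [Prod.snd_add, h6]
      exact h4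
    · exfalso
      by_cases h3 : P.u p.1 p.2 + P.u (p.1 + b.1) (p.2 + b.2) = 0
      · have h3' : P.u p'.1 p'.2 + P.u (p'.1 + b.1) (p'.2 + b.2) = 0 := by rw [← hρ]; exact h3
        have e1 := u_zero P _ _ _ _ h3
        have e2 := u_zero P _ _ _ _ h3'
        have e3 := delta_sum (K := K) p.1 p'.1 b.1 hb1 h1 h2
        have hi := eta_inv_iota P b.1 hb1
        have e4 : P.u p.1 p.2 + P.u p'.1 p'.2 = (P.iota b.1)⁻¹ := by
          have hi1 := hi.1
          field_simp
          have e5 := char2 b.2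
          linear_combination e1 + e2 + e3 + e5
        have e6 : P.η (P.u p.1 p.2) + P.η (P.u p'.1 p'.2) = 1 := by
          rw [← map_add, e4, hi.2]
        rw [r_zero P rK (hne p) (by simpa using h3), r_zero P rK (hne p') (by simpa using h3')] at h
        have h4 := congrArg Prod.fst h
        simp only [Prod.fst_add, x_add_add] at h4
        revert e6 h4
        generalize P.η (P.u p.1 p.2) = s
        generalize P.η (P.u p'.1 p'.2) = t
        intro e6 h4
        rcases zmod2_cases s with rfl | rfl <;> rcases zmod2_cases t with rfl | rfl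
        · simp at e6
        · simp at h4; exact phi_ne _ hb1 h4.symm
        · simp at h4; exact phi_ne _ hb1 h4
        · exact absurd e6 (by decide)
      · have h3' : P.u p'.1 p'.2 + P.u (p'.1 + b.1) (p'.2 + b.2) ≠ 0 := by rw [← hρ]; exact h3
        have h4 := congrArg Prod.fst h
        rw [r_pos P rK (hne p) (by simpa using h3), r_pos P rK (hne p') (by simpa using h3')] at h4
        simp only [Prod.fst_add] at h4
        have k1 : hh (p.1 + b.1) p.1 = hh (p.1 + b.1) ((p.1 + b.1) + b.1) := by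
          rw [add_add_self]
        have k2 : hh (p'.1 + b.1) p'.1 = hh (p'.1 + b.1) ((p'.1 + b.1) + b.1) := by
          rw [add_add_self]
        split_ifs at h4
        · exact h1 (hh_diag _ _ _ h4).symm
        · rw [k2] at h4
          have h5 := hh_diag _ _ _ h4
          apply h2
          rw [h5, add_add_self]
        · rw [k1] at h4
          have h5 := hh_diag _ _ _ h4
          exact h2 h5.symm
        · rw [k1, k2] at h4
          have h5 := hh_diag _ _ _ h4
          exact h1 (add_right_cancel h5).symm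

theorem mate_step (P : Params K) (h : Mate K) : Mate (F4 × K) := by
  obtain ⟨rK, h0, hs, hA, hB⟩ := h
  exact ⟨P.r rK, r_ne P rK h0, r_symm P rK hs, r_A P rK h0 hA, r_B P rK hB⟩

end Pool.Agent.Lib.MP_db622c_co
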